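import Mathlib

/-!
# Definitions for the fixed point problem for semigroups with an invariant mean on `WAP(S)`
-/

namespace Pool.Agent.U498.WAP

open BoundedContinuousFunction Topology

/-- A semitopological semigroup: a semigroup with a Hausdorff topology in which all left and all
right translations are continuous. -/
structure IsSemitopological (S : Type*) [Semigroup S] [TopologicalSpace S] : Prop where
  t2 : T2Space S
  continuous_mul_left : ∀ t : S, Continuous fun s : S => t * s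
  continuous_mul_right : ∀ t : S, Continuous fun s : S => s * t

section WAP

variable (𝕜 : Type*) [RCLike 𝕜] {S : Type*} [Semigroup S] [TopologicalSpace S]

/-- The left translate `ℓ_a f : t ↦ f (a t)` of `f ∈ C_b(S)`. -/
noncomputable def leftTranslate (hS : IsSemitopological S) (a : S) (f : S →ᵇ 𝕜) : S →ᵇ 𝕜 :=
  f.compContinuous ⟨fun t => a * t, hS.continuous_mul_left a⟩

/-- `f ∈ C_b(S)` is weakly almost periodic: its orbit `{ℓ_a f : a ∈ S}` is relatively weakly compact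
in `C_b(S)`. -/
def IsWAP (hS : IsSemitopological S) (f : S →ᵇ 𝕜) : Prop :=
  IsCompact (closure (toWeakSpace 𝕜 (S →ᵇ 𝕜) '' Set.range fun a => leftTranslate 𝕜 hS a f))

theorem leftTranslate_add (hS : IsSemitopological S) (a : S) (f g : S →ᵇ 𝕜) :
    leftTranslate 𝕜 hS a (f + g) = leftTranslate 𝕜 hS a f + leftTranslate 𝕜 hS a g := rfl

theorem leftTranslate_smul (hS : IsSemitopological S) (a : S) (c : 𝕜) (f : S →ᵇ 𝕜) :
    leftTranslate 𝕜 hS a (c • f) = c • leftTranslate 𝕜 hS a f := rfl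

theorem isWAP_of_subset (hS : IsSemitopological S) (f : S →ᵇ 𝕜)
    (K : Set (WeakSpace 𝕜 (S →ᵇ 𝕜))) (hK : IsCompact K)
    (h : ∀ a, toWeakSpace 𝕜 (S →ᵇ 𝕜) (leftTranslate 𝕜 hS a f) ∈ K) : IsWAP 𝕜 hS f := by
  refine hK.closure_of_subset ?_
  rintro _ ⟨_, ⟨a, rfl⟩, rfl⟩
  exact h a

theorem isWAP_const (hS : IsSemitopological S) (f : S →ᵇ 𝕜) (hf : ∀ s t, f s = f t) :
    IsWAP 𝕜 hS f := by
  refine isWAP_of_subset 𝕜 hS f {toWeakSpace 𝕜 (S →ᵇ 𝕜) f} isCompact_singleton fun a => ?_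
  rw [Set.mem_singleton_iff]
  congr 1
  ext t
  exact hf _ _

/-- The space `WAP(S)` of weakly almost periodic functions. -/
def WAP (hS : IsSemitopological S) : Submodule 𝕜 (S →ᵇ 𝕜) where
  carrier := {f | IsWAP 𝕜 hS f}
  add_mem' := by
    intro f g hf hg
    refine isWAP_of_subset 𝕜 hS _ _ (IsCompact.add hf hg) fun a => ?_
    rw [leftTranslate_add, map_add]
    exact Set.add_mem_add (subset_closure ⟨_, ⟨a, rfl⟩, rfl⟩) (subset_closure ⟨_, ⟨a, rfl⟩, rfl⟩)
  zero_mem' := isWAP_const 𝕜 hS 0 fun _ _ => rfl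
  smul_mem' := by
    intro c f hf
    have h1 : Continuous fun x : WeakSpace 𝕜 (S →ᵇ 𝕜) => c • x := continuous_const_smul c
    refine isWAP_of_subset 𝕜 hS _ _ (IsCompact.image hf h1) fun a => ?_
    rw [leftTranslate_smul, map_smul]
    exact ⟨_, subset_closure ⟨_, ⟨a, rfl⟩, rfl⟩, rfl⟩

theorem one_mem_WAP (hS : IsSemitopological S) : (1 : S →ᵇ 𝕜) ∈ WAP 𝕜 hS :=
  isWAP_const 𝕜 hS 1 fun _ _ => rfl

theorem leftTranslate_mem_WAP (hS : IsSemitopological S) (a : S) {f : S →ᵇ 𝕜}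
    (hf : f ∈ WAP 𝕜 hS) : leftTranslate 𝕜 hS a f ∈ WAP 𝕜 hS := by
  refine isWAP_of_subset 𝕜 hS _ _ hf fun b => ?_
  refine subset_closure ⟨_, ⟨a * b, rfl⟩, ?_⟩
  congr 1
  ext t
  show f (a * b * t) = f (a * (b * t))
  rw [mul_assoc]

open ComplexOrder in
/-- A left invariant mean on `WAP(S)`: a positive linear functional `m` with `m 1 = 1` and
`m (ℓ_a f) = m f`. -/
structure IsLIM (hS : IsSemitopological S) (m : WAP 𝕜 hS →ₗ[𝕜] 𝕜) : Prop where
  nonneg : ∀ f : WAP 𝕜 hS, (∀ s, 0 ≤ (f : S →ᵇ 𝕜) s) → 0 ≤ m f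
  one : m ⟨1, one_mem_WAP 𝕜 hS⟩ = 1
  inv : ∀ (a : S) (f : WAP 𝕜 hS),
    m ⟨leftTranslate 𝕜 hS a f, leftTranslate_mem_WAP 𝕜 hS a f.2⟩ = m f

end WAP

section Fixed

/-- The set `C ⊆ E`, as a type of its own which carries the relative weak topology `σ(E, E^*)`. -/
def Wk (𝕂 : Type*) {E : Type*} [RCLike 𝕂] [AddCommGroup E] [Module 𝕂 E] [TopologicalSpace E]
    (C : Set E) : Type _ := {x : E // x ∈ C}

variable {𝕂 : Type*} {E : Type*} [RCLike 𝕂] [AddCommGroup E] [Module 𝕂 E] [TopologicalSpace E]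

/-- The vector in `E` given by a point of `Wk 𝕂 C`. -/
def Wk.val {C : Set E} (x : Wk 𝕂 C) : E := Subtype.val x

/-- The relative weak topology of `C`. -/
noncomputable instance {C : Set E} : TopologicalSpace (Wk 𝕂 C) :=
  TopologicalSpace.induced (fun x : Wk 𝕂 C => toWeakSpace 𝕂 E x.val) inferInstance

/-- Property (F) of a semitopological semigroup `S`, for locally convex spaces over `𝕂`: every weakly
separately continuous, weakly quasi-equicontinuous, `Q`-nonexpansive representation of `S` on a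
nonempty weakly compact convex subset `C` of a Hausdorff locally convex space `(E, Q)` has a common
fixed point. -/
def PropertyF.{v, w} (𝕂 : Type*) [RCLike 𝕂] (S : Type*) [Semigroup S] [TopologicalSpace S] : Prop :=
  ∀ (E : Type v) [AddCommGroup E] [Module 𝕂 E] [Module ℝ E] [IsScalarTower ℝ 𝕂 E]
    [TopologicalSpace E] [T2Space E] (ι : Type w) (Q : SeminormFamily 𝕂 E ι),
    WithSeminorms Q →
    ∀ C : Set E, C.Nonempty → Convex ℝ C → IsCompact (toWeakSpace 𝕂 E '' C) →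
    ∀ T : S → Wk 𝕂 C → Wk 𝕂 C,
      (∀ s t, T (s * t) = T s ∘ T t) →
      (∀ x, Continuous fun s => T s x) → (∀ s, Continuous (T s)) →
      (∀ g ∈ closure (Set.range T), Continuous g) →
      (∀ s i x y, Q i ((T s x).val - (T s y).val) ≤ Q i (x.val - y.val)) →
      ∃ x, ∀ s, T s x = x

end Fixed

end Pool.Agent.U498.WAP
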