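import Pool.Agent.U498.WAP.Ideal

/-!
# Actions of a compact semitopological semigroup by nonexpansive maps

`Γ` acts on `X`; `R ⊆ Γ` is a closed right ideal as in `exists_right_ideal`.
-/

set_option linter.unusedSectionVars false

namespace Pool.Agent.U498.WAP

open Filter Topology Set

/-- the data of the core argument -/
structure Core (Γ X E ι : Type*) [Semigroup Γ] [TopologicalSpace Γ] [TopologicalSpace X]
    [AddCommGroup E] [Module ℝ E] where
  hl : ∀ g : Γ, Continuous fun h : Γ => g * h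
  hr : ∀ g : Γ, Continuous fun h : Γ => h * g
  /-- the action -/
  act : Γ → X → X
  act_mul : ∀ g h x, act (g * h) x = act g (act h x)
  act_cont : ∀ g, Continuous (act g)
  orb_cont : ∀ x, Continuous fun g => act g x
  /-- the embedding in the vector space -/
  val : X → E
  val_inj : Function.Injective val
  /-- the seminorms -/
  q : ι → Seminorm ℝ E
  nonexp : ∀ g i x y, q i (val (act g x) - val (act g y)) ≤ q i (val x - val y)
  closed_ball : ∀ i z δ, IsClosed {x : X | q i (val x - z) ≤ δ}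
  sep : ∀ D : Set X, D.Countable → ∃ c : Set E, c.Countable ∧
    ∀ x ∈ closure D, ∀ i, ∀ δ > 0, ∃ w ∈ c, q i (val x - w) ≤ δ
  sepPts : ∀ x y : X, (∀ i, q i (val x - val y) = 0) → x = y
  cvx : Convex ℝ (range val)
  /-- the right ideal -/
  R : Set Γ
  R_closed : IsClosed R
  R_nonempty : R.Nonempty
  R_right : ∀ r ∈ R, ∀ g, r * g ∈ R
  R_left : ∀ g, ∀ r ∈ R, g * r ∈ R
  R_surj : ∀ g, ∀ r ∈ R, ∃ r' ∈ R, g * r' = r
  R_idem : ∀ f ∈ R, f * f = f → ∀ r ∈ R, f * r = r

namespace Core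

variable {Γ X E ι : Type*} [Semigroup Γ] [TopologicalSpace Γ] [CompactSpace Γ] [T2Space Γ]
  [TopologicalSpace X] [CompactSpace X] [T2Space X]
  [AddCommGroup E] [Module ℝ E] (c : Core Γ X E ι)

/-- the set `K = R x` -/
def K (x : X) : Set X := (fun r => c.act r x) '' c.R

theorem K_closed (x : X) : IsClosed (c.K x) :=
  (c.R_closed.isCompact.image (c.orb_cont x)).isClosed

theorem K_left (x : X) (g : Γ) {y : X} (hy : y ∈ c.K x) : c.act g y ∈ c.K x := by
  obtain ⟨r, hr, rfl⟩ := hy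
  exact ⟨g * r, c.R_left g r hr, c.act_mul _ _ _⟩

theorem K_surj (x : X) (g : Γ) {y : X} (hy : y ∈ c.K x) : ∃ y' ∈ c.K x, c.act g y' = y := by
  obtain ⟨r, hr, rfl⟩ := hy
  obtain ⟨r', hr', h⟩ := c.R_surj g r hr
  refine ⟨_, ⟨r', hr', rfl⟩, ?_⟩
  show c.act g (c.act r' x) = c.act r x
  rw [← c.act_mul, h]

theorem K_idem (x : X) {f : Γ} (hf : f ∈ c.R) (hff : f * f = f) {y : X} (hy : y ∈ c.K x) :
    c.act f y = y := by
  obtain ⟨r, hr, rfl⟩ := hy
  show c.act f (c.act r x) = c.act r x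
  rw [← c.act_mul, c.R_idem f hf hff r hr]

/-- a closed subsemigroup of `R` contains right inverses -/
theorem exists_right_inv {H : Set Γ} (hHc : IsClosed H) (hHR : H ⊆ c.R)
    (hHm : ∀ g ∈ H, ∀ h ∈ H, g * h ∈ H) {h : Γ} (hh : h ∈ H) :
    ∃ h' ∈ H, h * h' ∈ c.R ∧ (h * h') * (h * h') = h * h' := by
  have h1 := exists_idempotent_in_compact_subsemigroup c.hr ((fun a => h * a) '' H)
    (⟨_, mem_image_of_mem _ hh⟩) (hHc.isCompact.image (c.hl h)) (by
      rintro _ ⟨a, ha, rfl⟩ _ ⟨b, hb, rfl⟩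
      exact ⟨a * (h * b), hHm _ ha _ (hHm _ hh _ hb), by simp only [mul_assoc]⟩)
  obtain ⟨m, ⟨a, ha, rfl⟩, hm⟩ := h1
  exact ⟨a, ha, hHR (hHm _ hh _ ha), hm⟩

theorem exists_inv (x : X) {H : Set Γ} (hHc : IsClosed H) (hHR : H ⊆ c.R)
    (hHm : ∀ g ∈ H, ∀ h ∈ H, g * h ∈ H) {h : Γ} (hh : h ∈ H) :
    ∃ h' ∈ H, ∀ y ∈ c.K x, c.act h (c.act h' y) = y ∧ c.act h' (c.act h y) = y := by
  obtain ⟨h', hh', h1, h2⟩ := c.exists_right_inv hHc hHR hHm hh
  obtain ⟨h'', hh'', h3, h4⟩ := c.exists_right_inv hHc hHR hHm hh'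
  have e1 : ∀ y ∈ c.K x, c.act h (c.act h' y) = y := fun y hy => by
    rw [← c.act_mul]; exact c.K_idem x h1 h2 hy
  have e2 : ∀ y ∈ c.K x, c.act h' (c.act h'' y) = y := fun y hy => by
    rw [← c.act_mul]; exact c.K_idem x h3 h4 hy
  refine ⟨h', hh', fun y hy => ⟨e1 y hy, ?_⟩⟩
  have e3 := e1 (c.act h'' y) (c.K_left x _ hy)
  rw [e2 y hy] at e3
  rw [e3, e2 y hy]

theorem R_mul : ∀ g ∈ c.R, ∀ h ∈ c.R, g * h ∈ c.R := fun g _ h hh => c.R_left g h hh

/-- elements of `R` act on `K` by isometries -/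
theorem K_isom (x : X) {r : Γ} (hr : r ∈ c.R) (i : ι) {y z : X} (hy : y ∈ c.K x)
    (hz : z ∈ c.K x) :
    c.q i (c.val (c.act r y) - c.val (c.act r z)) = c.q i (c.val y - c.val z) := by
  obtain ⟨r', -, h⟩ := c.exists_inv x c.R_closed subset_rfl c.R_mul hr
  apply le_antisymm (c.nonexp _ _ _ _)
  have h1 := c.nonexp r' i (c.act r y) (c.act r z)
  rw [(h y hy).2, (h z hz).2] at h1
  exact h1

/-- the closed subsemigroup generated by a sequence -/
def H (r : ℕ → Γ) : Set Γ := closure (range (FreeSemigroup.lift r : FreeSemigroup ℕ → Γ))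

omit [CompactSpace Γ] [T2Space Γ] [TopologicalSpace X] [CompactSpace X] [T2Space X] in
theorem H_mul' (hl : ∀ g : Γ, Continuous fun h : Γ => g * h)
    (hr : ∀ g : Γ, Continuous fun h : Γ => h * g) (r : ℕ → Γ) :
    ∀ g ∈ (H r), ∀ h ∈ (H r), g * h ∈ (H r) := by
  have h1 : ∀ g ∈ range (FreeSemigroup.lift r : FreeSemigroup ℕ → Γ), ∀ h ∈ H r, g * h ∈ H r := by
    rintro _ ⟨a, rfl⟩ h hh
    refine map_mem_closure (hl _) hh ?_
    rintro _ ⟨b, rfl⟩
    exact ⟨a * b, by rw [map_mul]⟩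
  intro g hg h hh
  have h2 : MapsTo (fun g => g * h) (range (FreeSemigroup.lift r : FreeSemigroup ℕ → Γ)) (H r) :=
    fun g hg => h1 g hg h hh
  have h3 := h2.closure (hr h)
  rw [show closure (H r) = H r from isClosed_closure.closure_eq] at h3
  exact h3 hg

theorem H_sub (r : ℕ → Γ) (hr : ∀ n, r n ∈ c.R) : H r ⊆ c.R := by
  refine closure_minimal ?_ c.R_closed
  rintro _ ⟨a, rfl⟩
  induction a using FreeSemigroup.recOnMul with
  | ih1 n => simpa using hr n
  | ih2 n a h1 h2 => rw [map_mul]; exact c.R_mul _ h1 _ h2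

instance : Countable (FreeSemigroup ℕ) := by
  have : Function.Injective (fun a : FreeSemigroup ℕ => (a.head, a.tail)) := by
    rintro ⟨a, b⟩ ⟨c, d⟩ h
    simp only [Prod.mk.injEq] at h
    rw [h.1, h.2]
  exact this.countable

/-- total boundedness of `K x`, when `x ∈ K x` -/
theorem totallyBounded (x : X) (hx : x ∈ c.K x) (i : ι) {ε : ℝ} (hε : 0 < ε) :
    ∃ F : Finset X, (↑F : Set X) ⊆ c.K x ∧ ∀ y ∈ c.K x, ∃ z ∈ F, c.q i (c.val z - c.val y) < ε := by
  classical
  by_contra hcon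
  push Not at hcon
  have hsymm : ∀ a b : E, c.q i (a - b) = c.q i (b - a) := fun a b => by
    rw [← neg_sub, map_neg_eq_map]
  -- a separated sequence
  obtain ⟨f, hf1, hf2⟩ := exists_seq_of_forall_finset_exists (fun y : X => y ∈ c.K x)
    (fun z y : X => ε ≤ c.q i (c.val z - c.val y)) (fun s hs => by
      obtain ⟨y, hy, h⟩ := hcon s (fun z hz => hs z hz)
      exact ⟨y, hy, fun z hz => h z hz⟩)
  have hf3 : ∀ m n, m ≠ n → ε ≤ c.q i (c.val (f m) - c.val (f n)) := by
    intro m n hmn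
    rcases lt_or_gt_of_ne hmn with h | h
    · exact hf2 m n h
    · rw [hsymm]; exact hf2 n m h
  choose r hr hrf using hf1
  have hrf' : ∀ n, c.act (r n) x = f n := hrf
  let HH : Set Γ := H r
  have hHc : IsClosed HH := isClosed_closure
  have hHm : ∀ g ∈ HH, ∀ h ∈ HH, g * h ∈ HH := H_mul' c.hl c.hr r
  have hHR : HH ⊆ c.R := c.H_sub r hr
  let O : Set X := (fun g => c.act g x) '' HH
  have hOK : O ⊆ c.K x := by
    rintro _ ⟨g, hg, rfl⟩
    exact c.K_left x g hx
  have hOc : IsCompact O := hHc.isCompact.image (c.orb_cont x)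
  have hOcl : IsClosed O := hOc.isClosed
  have hOH : ∀ g ∈ HH, ∀ y ∈ O, c.act g y ∈ O := by
    rintro g hg _ ⟨h, hh, rfl⟩
    exact ⟨g * h, hHm g hg h hh, c.act_mul _ _ _⟩
  have hfO : ∀ n, f n ∈ O := fun n => ⟨r n, subset_closure ⟨FreeSemigroup.of n, by simp⟩, hrf' n⟩
  -- separability
  let Dx : Set X := (fun g => c.act g x) '' range (FreeSemigroup.lift r : FreeSemigroup ℕ → Γ)
  have hDx : Dx.Countable := (countable_range _).image _
  have hODx : O ⊆ closure Dx := image_closure_subset_closure_image (c.orb_cont x)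
  obtain ⟨w, hw, hwd⟩ := c.sep Dx hDx
  -- Baire
  have hOne : Nonempty O := ⟨⟨f 0, hfO 0⟩⟩
  have : CompactSpace O := isCompact_iff_compactSpace.1 hOc
  have hwc : Countable w := hw.to_subtype
  obtain ⟨⟨v, hv⟩, hint⟩ := nonempty_interior_of_iUnion_of_closed
    (f := fun v : w => {y : O | c.q i (c.val y.1 - v.1) ≤ ε / 3})
    (fun v => (c.closed_ball i v.1 (ε / 3)).preimage continuous_subtype_val) (by
      ext y
      simp only [mem_iUnion, mem_univ, iff_true]
      obtain ⟨v, hv, h⟩ := hwd y.1 (hODx y.2) i (ε / 3) (by positivity)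
      exact ⟨⟨v, hv⟩, h⟩)
  obtain ⟨u, hu⟩ := hint
  obtain ⟨t, ht, hto, hut⟩ := mem_interior.1 hu
  obtain ⟨U, hU, rfl⟩ := isOpen_induced_iff.1 hto
  have hUball : ∀ y ∈ O, y ∈ U → c.q i (c.val y - v) ≤ ε / 3 := fun y hy hyU =>
    ht (show (⟨y, hy⟩ : O) ∈ _ from hyU)
  obtain ⟨g, hg, hgu⟩ := u.2
  have hgu' : c.act g x = u.1 := hgu
  -- cover of `O`
  have hcov : ∀ y ∈ O, ∃ h ∈ HH, c.act h y ∈ U := by
    rintro _ ⟨h, hh, rfl⟩
    obtain ⟨h', hh', hinv⟩ := c.exists_inv x hHc hHR hHm hh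
    refine ⟨g * h', hHm _ hg _ hh', ?_⟩
    rw [c.act_mul]
    show c.act g (c.act h' (c.act h x)) ∈ U
    rw [(hinv x hx).2, hgu']
    exact hut
  have hΓne : Nonempty Γ := ⟨r 0⟩
  choose! k hkH hkU using hcov
  obtain ⟨T, hTO, hT⟩ := hOc.elim_nhds_subcover (fun y => (c.act (k y)) ⁻¹' U) (fun y hy =>
    (hU.preimage (c.act_cont _)).mem_nhds (hkU y hy))
  -- pigeonhole
  have hidx : ∀ n, ∃ y : T, f n ∈ (c.act (k y.1)) ⁻¹' U := by
    intro n
    have := hT (hfO n)
    simp only [mem_iUnion] at this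
    obtain ⟨y, hy, h⟩ := this
    exact ⟨⟨y, hy⟩, h⟩
  choose idx hidx using hidx
  obtain ⟨m, n, hmn, hmn'⟩ := Finite.exists_ne_map_eq_of_infinite idx
  have h1 := hidx m
  have h2 := hidx n
  rw [← hmn'] at h2
  have hkH' := hkH _ (hTO _ (idx m).2)
  have h3 : c.q i (c.val (c.act (k (idx m).1) (f m)) - v) ≤ ε / 3 :=
    hUball _ (hOH _ hkH' _ (hfO m)) h1
  have h4 : c.q i (c.val (c.act (k (idx m).1) (f n)) - v) ≤ ε / 3 :=
    hUball _ (hOH _ hkH' _ (hfO n)) h2
  have h5 := c.K_isom x (hHR hkH') i (hOK (hfO m)) (hOK (hfO n))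
  have h6 : c.q i (c.val (c.act (k (idx m).1) (f m)) - c.val (c.act (k (idx m).1) (f n))) ≤
      c.q i (c.val (c.act (k (idx m).1) (f m)) - v) +
      c.q i (c.val (c.act (k (idx m).1) (f n)) - v) := by
    rw [hsymm (c.val (c.act (k (idx m).1) (f n))) v]
    exact le_map_sub_add_map_sub _ _ _ _
  have h7 := hf3 m n hmn
  rw [← h5] at h7
  linarith

/-- `A` is convex (as a subset of `X`, seen in `E`) -/
def Cvx (A : Set X) : Prop := ∀ x ∈ A, ∀ y ∈ A, ∀ z : X, ∀ a b : ℝ, 0 ≤ a → 0 ≤ b → a + b = 1 →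
  c.val z = a • c.val x + b • c.val y → z ∈ A

theorem Cvx.convex {A : Set X} (hA : c.Cvx A) : Convex ℝ (c.val '' A) := by
  rintro _ ⟨x, hx, rfl⟩ _ ⟨y, hy, rfl⟩ a b ha hb hab
  obtain ⟨z, hz⟩ := c.cvx (mem_range_self x) (mem_range_self y) ha hb hab
  exact ⟨z, hA x hx y hy z a b ha hb hab hz, hz⟩

/-- the fixed point theorem for the core data; `T s` is given by elements `τ s` of `Γ` -/
theorem fixedPoint {S : Type*} (τ : S → Γ) (hτ : Dense (range τ)) (hX : Nonempty X) :
    ∃ x : X, ∀ s, c.act (τ s) x = x := by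
  classical
  have hsymm : ∀ i, ∀ a b : E, c.q i (a - b) = c.q i (b - a) := fun i a b => by
    rw [← neg_sub, map_neg_eq_map]
  let 𝓕 : Set (Set X) := {A | IsClosed A ∧ A.Nonempty ∧ c.Cvx A ∧ ∀ s, ∀ x ∈ A, c.act (τ s) x ∈ A}
  obtain ⟨A, hA⟩ : ∃ A, Minimal (· ∈ 𝓕) A := by
    refine zorn_superset _ fun C hcs hc => ?_
    refine ⟨⋂₀ C, ⟨isClosed_sInter fun t ht => (hcs ht).1, ?_, ?_, fun s x hx => ?_⟩, fun s hs =>
      Set.sInter_subset_of_mem hs⟩
    · obtain rfl | hcnemp := C.eq_empty_or_nonempty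
      · rw [Set.sInter_empty]
        apply Set.univ_nonempty
      rw [Set.sInter_eq_iInter]
      have : Nonempty C := hcnemp.coe_sort
      refine IsCompact.nonempty_iInter_of_directed_nonempty_isCompact_isClosed
        ((↑) : C → Set X) ?_ (fun i => (hcs i.prop).2.1) (fun i => (hcs i.prop).1.isCompact)
        (fun i => (hcs i.prop).1)
      exact DirectedOn.directed_val (IsChain.directedOn hc.symm)
    · intro x hx y hy z a b ha hb hab hz
      rw [Set.mem_sInter] at hx hy ⊢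
      exact fun t ht => (hcs ht).2.2.1 x (hx t ht) y (hy t ht) z a b ha hb hab hz
    · rw [Set.mem_sInter] at hx ⊢
      exact fun t ht => (hcs ht).2.2.2 s x (hx t ht)
  obtain ⟨hAc, ⟨x0, hx0⟩, hAv, hAs⟩ := hA.prop
  -- invariance under `Γ`
  have hAΓ : ∀ g : Γ, ∀ x ∈ A, c.act g x ∈ A := by
    intro g x hx
    have h1 : MapsTo (fun g => c.act g x) (range τ) A := by
      rintro _ ⟨s, rfl⟩
      exact hAs s x hx
    exact h1.closure_left (c.orb_cont x) hAc (hτ g)
  obtain ⟨e, heR, hee⟩ := exists_idempotent_in_compact_subsemigroup c.hr c.R c.R_nonempty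
    c.R_closed.isCompact c.R_mul
  set x := c.act e x0 with hxdef
  have hxA : x ∈ A := hAΓ e x0 hx0
  have hxK : x ∈ c.K x := ⟨e, heR, by show c.act e x = x; rw [hxdef, ← c.act_mul, hee]⟩
  have hKA : c.K x ⊆ A := by
    rintro _ ⟨r, -, rfl⟩
    exact hAΓ r x hxA
  -- all distances in `K` vanish
  have hzero : ∀ i, ∀ y ∈ c.K x, ∀ z ∈ c.K x, c.q i (c.val y - c.val z) = 0 := by
    intro i
    by_contra hcon
    push Not at hcon
    obtain ⟨y1, hy1, z1, hz1, hne⟩ := hcon
    have hpos1 : 0 < c.q i (c.val y1 - c.val z1) := lt_of_le_of_ne (apply_nonneg _ _) (Ne.symm hne)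
    -- boundedness
    let Ds : Set ℝ := {t | ∃ y ∈ c.K x, ∃ z ∈ c.K x, t = c.q i (c.val y - c.val z)}
    have hbdd : BddAbove Ds := by
      obtain ⟨F, hFK, hF⟩ := c.totallyBounded x hxK i one_pos
      obtain ⟨B, hB⟩ : ∃ B : ℝ, ∀ z ∈ F, c.q i (c.val z - c.val x) ≤ B := by
        obtain ⟨B, hB⟩ := (F.finite_toSet.image (fun z => c.q i (c.val z - c.val x))).bddAbove
        exact ⟨B, fun z hz => hB (mem_image_of_mem _ hz)⟩
      have h1 : ∀ y ∈ c.K x, c.q i (c.val y - c.val x) ≤ 1 + B := by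
        intro y hy
        obtain ⟨z, hz, h⟩ := hF y hy
        have h2 := le_map_sub_add_map_sub (c.q i) (c.val y) (c.val z) (c.val x)
        rw [hsymm i (c.val y) (c.val z)] at h2
        linarith [hB z hz]
      refine ⟨(1 + B) + (1 + B), ?_⟩
      rintro _ ⟨y, hy, z, hz, rfl⟩
      have h2 := le_map_sub_add_map_sub (c.q i) (c.val y) (c.val x) (c.val z)
      rw [hsymm i (c.val x) (c.val z)] at h2
      linarith [h1 y hy, h1 z hz]
    have hDne : Ds.Nonempty := ⟨_, y1, hy1, z1, hz1, rfl⟩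
    set d := sSup Ds with hd
    have hdle : ∀ y ∈ c.K x, ∀ z ∈ c.K x, c.q i (c.val y - c.val z) ≤ d := fun y hy z hz =>
      le_csSup hbdd ⟨y, hy, z, hz, rfl⟩
    have hdpos : 0 < d := hpos1.trans_le (hdle y1 hy1 z1 hz1)
    obtain ⟨F, hFK, hF⟩ := c.totallyBounded x hxK i (half_pos hdpos)
    have hFne : F.Nonempty := by
      obtain ⟨z, hz, -⟩ := hF x hxK
      exact ⟨z, hz⟩
    have hn : (0 : ℝ) < F.card := by exact_mod_cast hFne.card_pos
    -- the barycentre
    obtain ⟨u, huA, hu⟩ : ∃ u ∈ A, c.val u = ∑ z ∈ F, (1 / (F.card : ℝ)) • c.val z := by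
      have h1 := (Cvx.convex c hAv).sum_mem (t := F) (w := fun _ => 1 / (F.card : ℝ))
        (z := fun z => c.val z) (fun _ _ => by positivity) (by
          rw [Finset.sum_const, nsmul_eq_mul]; field_simp) (fun z hz =>
          mem_image_of_mem _ (hKA (hFK hz)))
      obtain ⟨u, hu1, hu2⟩ := h1
      exact ⟨u, hu1, hu2⟩
    have hur : ∀ y ∈ c.K x, c.q i (c.val u - c.val y) ≤ d - d / (2 * F.card) := by
      intro y hy
      obtain ⟨z0, hz0, hz0'⟩ := hF y hy
      have h1 : c.val u - c.val y = ∑ z ∈ F, (1 / (F.card : ℝ)) • (c.val z - c.val y) := by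
        rw [hu]
        simp only [smul_sub, Finset.sum_sub_distrib, Finset.sum_const]
        congr 1
        rw [← Nat.cast_smul_eq_nsmul ℝ, smul_smul]
        rw [mul_one_div_cancel hn.ne', one_smul]
      rw [h1]
      have h2 : c.q i (∑ z ∈ F, (1 / (F.card : ℝ)) • (c.val z - c.val y)) ≤
          ∑ z ∈ F, c.q i ((1 / (F.card : ℝ)) • (c.val z - c.val y)) := by
        exact Finset.le_sum_of_subadditive _ (map_zero _).le (fun a b => map_add_le_add _ a b) _ _
      refine h2.trans ?_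
      have h3 : ∀ z ∈ F, c.q i ((1 / (F.card : ℝ)) • (c.val z - c.val y)) ≤
          (1 / (F.card : ℝ)) * (d - if z = z0 then d / 2 else 0) := by
        intro z hz
        rw [map_smul_eq_mul, Real.norm_of_nonneg (by positivity)]
        gcongr
        split_ifs with h
        · subst h; linarith
        · simpa using hdle z (hFK hz) y hy
      refine (Finset.sum_le_sum h3).trans (le_of_eq ?_)
      rw [← Finset.mul_sum, Finset.sum_sub_distrib, Finset.sum_ite_eq' F z0, if_pos hz0,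
        Finset.sum_const, nsmul_eq_mul]
      field_simp
    set r0 := d - d / (2 * F.card) with hr0
    have hr0d : r0 < d := by
      have : 0 < d / (2 * F.card) := by positivity
      linarith
    -- the smaller set
    let A1 : Set X := {z | z ∈ A ∧ ∀ y ∈ c.K x, c.q i (c.val z - c.val y) ≤ r0}
    have hA1 : A1 ∈ 𝓕 := by
      refine ⟨?_, ⟨u, huA, hur⟩, ?_, ?_⟩
      · have h1 : A1 = A ∩ ⋂ y ∈ c.K x, {z | c.q i (c.val z - c.val y) ≤ r0} := by
          ext z; simp [A1]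
        rw [h1]
        exact hAc.inter (isClosed_biInter fun y _ => c.closed_ball i _ _)
      · rintro z ⟨hz, hz'⟩ w ⟨hw, hw'⟩ v a b ha hb hab hv
        refine ⟨hAv z hz w hw v a b ha hb hab hv, fun y hy => ?_⟩
        have h1 : c.val v - c.val y = a • (c.val z - c.val y) + b • (c.val w - c.val y) := by
          have h2 : c.val y = a • c.val y + b • c.val y := by rw [← add_smul, hab, one_smul]
          rw [hv, smul_sub, smul_sub]
          nth_rewrite 1 [h2]
          abel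
        rw [h1]
        calc c.q i (a • (c.val z - c.val y) + b • (c.val w - c.val y)) ≤
              c.q i (a • (c.val z - c.val y)) + c.q i (b • (c.val w - c.val y)) :=
              map_add_le_add _ _ _
          _ = a * c.q i (c.val z - c.val y) + b * c.q i (c.val w - c.val y) := by
              rw [map_smul_eq_mul, map_smul_eq_mul, Real.norm_of_nonneg ha, Real.norm_of_nonneg hb]
          _ ≤ a * r0 + b * r0 := by
              gcongr
              · exact hz' y hy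
              · exact hw' y hy
          _ = r0 := by rw [← add_mul, hab, one_mul]
      · rintro s z ⟨hz, hz'⟩
        refine ⟨hAs s z hz, fun y hy => ?_⟩
        obtain ⟨y', hy', rfl⟩ := c.K_surj x (τ s) hy
        exact (c.nonexp _ _ _ _).trans (hz' y' hy')
    have hA1eq : A1 = A := hA.eq_of_subset hA1 (fun z hz => hz.1)
    obtain ⟨t, ⟨y, hy, z, hz, rfl⟩, ht⟩ := exists_lt_of_lt_csSup hDne (hd ▸ hr0d)
    have h1 : y ∈ A1 := by rw [hA1eq]; exact hKA hy
    exact absurd (h1.2 z hz) (not_le.mpr ht)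
  refine ⟨x, fun s => c.sepPts _ _ fun i => hzero i _ (c.K_left x _ hxK) _ hxK⟩

end Core

end Pool.Agent.U498.WAP
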