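import Pool.Agent.H756.Mazur

/-!
# Grothendieck's theorem on separately continuous functions, in functional form

`Pool.Agent.U498.WAP.continuous_functional`: if `Y` and `X` are compact (X Hausdorff) and
`F : Y → C(X, ℝ)` is uniformly bounded and pointwise continuous, then `y ↦ Λ (F y)` is continuous for
every continuous functional `Λ` on `C(X, ℝ)`.
-/

namespace Pool.Agent.U498.WAP

open Filter Topology Set

/-- bounded pointwise null sequences are weakly null in `C(X)` -/
theorem tendsto_functional_zero {L : Type*} [TopologicalSpace L] [CompactSpace L] [T2Space L]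
    (Λ : C(L, ℝ) →L[ℝ] ℝ) (g : ℕ → C(L, ℝ)) (C : ℝ) (hC : ∀ n t, |g n t| ≤ C)
    (hg : ∀ t, Tendsto (fun n => g n t) atTop (𝓝 0)) :
    Tendsto (fun n => Λ (g n)) atTop (𝓝 0) := by
  by_contra hcon
  rw [Metric.tendsto_atTop] at hcon
  push Not at hcon
  obtain ⟨δ, hδ, hN⟩ := hcon
  choose φ hφ1 hφ2 using hN
  -- the sequence with signs
  let g' : ℕ → C(L, ℝ) := fun n => (SignType.sign (Λ (g (φ n))) : ℝ) • g (φ n)
  have hφt : Tendsto φ atTop atTop := tendsto_atTop_mono hφ1 tendsto_id
  have hΛ : ∀ n, δ ≤ Λ (g' n) := by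
    intro n
    have h1 := hφ2 n
    rw [Real.dist_eq, sub_zero] at h1
    simp only [g', map_smul, smul_eq_mul]
    rw [sign_mul_self]
    exact h1
  have hsgn : ∀ x : ℝ, |((SignType.sign x : SignType) : ℝ)| ≤ 1 := by
    intro x
    rcases lt_trichotomy x 0 with h | h | h
    · simp [sign_neg h]
    · simp [h]
    · simp [sign_pos h]
  have habs : ∀ n t, |g' n t| ≤ |g (φ n) t| := by
    intro n t
    simp only [g', ContinuousMap.coe_smul, Pi.smul_apply, smul_eq_mul, abs_mul]
    have h1 := hsgn (Λ (g (φ n)))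
    nlinarith [abs_nonneg (g (φ n) t)]
  let h : ℕ → C(L, ℝ) := fun n => ⟨fun t => |g' n t|, by fun_prop⟩
  have hh1 : ∀ n t, |h n t| ≤ C := by
    intro n t
    show |(|g' n t|)| ≤ C
    rw [abs_abs]
    exact (habs n t).trans (hC _ _)
  have hh2 : ∀ t, Tendsto (fun n => h n t) atTop (𝓝 0) := by
    intro t
    have h1 : Tendsto (fun n => |g (φ n) t|) atTop (𝓝 0) := by
      have := ((hg t).comp hφt).abs
      simpa using this
    exact squeeze_zero (fun n => abs_nonneg _) (fun n => habs n t) h1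
  have hε : 0 < δ / (2 * (‖Λ‖ + 1)) := by positivity
  obtain ⟨a, ha, hlt⟩ := Pool.Agent.H756.mazur_pointwise h C hh1 hh2 hε
  let P : Set C(L, ℝ) := {a | ∃ b : C(L, ℝ), δ ≤ Λ b ∧ ∀ t, |b t| ≤ a t}
  have hP : Convex ℝ P := by
    rintro a ⟨b, hb1, hb2⟩ a' ⟨b', hb1', hb2'⟩ s t hs ht hst
    refine ⟨s • b + t • b', ?_, ?_⟩
    · rw [map_add, map_smul, map_smul, smul_eq_mul, smul_eq_mul]
      have h1 : δ = s * δ + t * δ := by rw [← add_mul, hst, one_mul]
      rw [h1]
      gcongr
    · intro x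
      simp only [ContinuousMap.coe_add, ContinuousMap.coe_smul, Pi.add_apply, Pi.smul_apply,
        smul_eq_mul]
      calc |s * b x + t * b' x| ≤ |s * b x| + |t * b' x| := abs_add_le _ _
        _ = s * |b x| + t * |b' x| := by rw [abs_mul, abs_mul, abs_of_nonneg hs, abs_of_nonneg ht]
        _ ≤ s * a x + t * a' x := by
          gcongr
          · exact hb2 x
          · exact hb2' x
  have hsub : convexHull ℝ (Set.range h) ⊆ P := by
    apply convexHull_min _ hP
    rintro _ ⟨n, rfl⟩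
    exact ⟨g' n, hΛ n, fun t => le_refl _⟩
  obtain ⟨b, hb1, hb2⟩ := hsub ha
  have hb3 : ‖b‖ ≤ δ / (2 * (‖Λ‖ + 1)) := by
    rw [ContinuousMap.norm_le _ hε.le]
    intro t
    rw [Real.norm_eq_abs]
    exact (hb2 t).trans (hlt t).le
  have h4 : Λ b ≤ ‖Λ‖ * ‖b‖ := (le_abs_self _).trans (Λ.le_opNorm b)
  have h5 : ‖Λ‖ * ‖b‖ ≤ ‖Λ‖ * (δ / (2 * (‖Λ‖ + 1))) := by gcongr
  have h6 : ‖Λ‖ * (δ / (2 * (‖Λ‖ + 1))) < δ := by
    rw [mul_div_assoc', div_lt_iff₀ (by positivity)]
    nlinarith [norm_nonneg Λ]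
  linarith

/-- a finite set that is `ε`-dense for finitely many continuous functions -/
theorem exists_finite_net {X : Type*} [TopologicalSpace X] [CompactSpace X]
    (s : Finset C(X, ℝ)) {ε : ℝ} (hε : 0 < ε) :
    ∃ P : Finset X, ∀ x, ∃ z ∈ P, ∀ f ∈ s, |f x - f z| < ε := by
  classical
  have hU : ∀ x : X, {y : X | ∀ f ∈ s, |f y - f x| < ε} ∈ 𝓝 x := by
    intro x
    have : IsOpen {y : X | ∀ f ∈ s, |f y - f x| < ε} := by
      have h1 : {y : X | ∀ f ∈ s, |f y - f x| < ε} = ⋂ f ∈ s, {y : X | |f y - f x| < ε} := by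
        ext y; simp
      rw [h1]
      refine isOpen_biInter_finset fun f _ => ?_
      exact isOpen_lt (by fun_prop) continuous_const
    exact this.mem_nhds (by simp [hε])
  obtain ⟨t, -, ht⟩ := isCompact_univ.elim_nhds_subcover _ (fun x _ => hU x)
  refine ⟨t, fun x => ?_⟩
  have := ht (mem_univ x)
  simp only [mem_iUnion] at this
  obtain ⟨z, hz, h⟩ := this
  exact ⟨z, hz, h⟩

/-- **Grothendieck.** A uniformly bounded, pointwise continuous map from a compact space to `C(X)`,
`X` compact Hausdorff, is weakly continuous. -/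
theorem continuous_functional {Y X : Type*} [TopologicalSpace Y] [CompactSpace Y]
    [TopologicalSpace X] [CompactSpace X] [T2Space X] (F : Y → C(X, ℝ))
    (hF : ∀ x, Continuous fun y => F y x) (C : ℝ) (hC : ∀ y x, |F y x| ≤ C)
    (Λ : C(X, ℝ) →L[ℝ] ℝ) : Continuous fun y => Λ (F y) := by
  classical
  rw [continuous_iff_image_closure_subset_closure_image]
  rintro A _ ⟨y₀, hy₀, rfl⟩
  have hYne : Nonempty Y := ⟨y₀⟩
  -- choice of the next point
  have hstep : ∀ (P : Finset X) (ε : ℝ), 0 < ε → ∃ y ∈ A, ∀ z ∈ P, |F y z - F y₀ z| < ε := by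
    intro P ε hε
    have hO : IsOpen {y : Y | ∀ z ∈ P, |F y z - F y₀ z| < ε} := by
      have h1 : {y : Y | ∀ z ∈ P, |F y z - F y₀ z| < ε} =
          ⋂ z ∈ P, {y : Y | |F y z - F y₀ z| < ε} := by
        ext y; simp
      rw [h1]
      refine isOpen_biInter_finset fun z _ => ?_
      exact isOpen_lt (((hF z).sub continuous_const).abs) continuous_const
    obtain ⟨y, hy1, hy2⟩ := mem_closure_iff.1 hy₀ _ hO (by simp [hε])
    exact ⟨y, hy2, hy1⟩
  choose! nx hnxA hnx using hstep
  choose! net hnet using fun (s : Finset C(X, ℝ)) (ε : ℝ) (hε : 0 < ε) => exists_finite_net s hε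
  -- state: (functions used so far, points used so far)
  let st : ℕ → Finset C(X, ℝ) × Finset X := fun n => Nat.rec
    ({F y₀}, net {F y₀} 1)
    (fun n p => (insert (F (nx p.2 (1 / (n + 1 : ℝ)))) p.1,
      p.2 ∪ net (insert (F (nx p.2 (1 / (n + 1 : ℝ)))) p.1) (1 / (n + 2 : ℝ)))) n
  let y : ℕ → Y := fun n => nx (st n).2 (1 / (n + 1 : ℝ))
  have hst : ∀ n, st (n + 1) = (insert (F (y n)) (st n).1,
      (st n).2 ∪ net (insert (F (y n)) (st n).1) (1 / (n + 2 : ℝ))) := fun n => rfl
  have hst0 : st 0 = ({F y₀}, net {F y₀} 1) := rfl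
  have hpos : ∀ n : ℕ, (0 : ℝ) < 1 / (n + 1 : ℝ) := fun n => by positivity
  have hyA : ∀ n, y n ∈ A := fun n => hnxA _ _ (hpos n)
  have hmono2 : Monotone fun n => (st n).2 := by
    refine monotone_nat_of_le_succ fun n => ?_
    show (st n).2 ⊆ (st (n + 1)).2
    rw [hst]
    exact Finset.subset_union_left
  have hmono1 : Monotone fun n => (st n).1 := by
    refine monotone_nat_of_le_succ fun n => ?_
    show (st n).1 ⊆ (st (n + 1)).1
    rw [hst]
    exact Finset.subset_insert _ _
  have hnetst : ∀ n x, ∃ z ∈ (st n).2, ∀ f ∈ (st n).1, |f x - f z| < 1 / (n + 1 : ℝ) := by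
    intro n x
    cases n with
    | zero =>
      rw [hst0]
      obtain ⟨z, hz, h⟩ := hnet {F y₀} 1 one_pos x
      exact ⟨z, hz, fun f hf => by simpa using h f hf⟩
    | succ n =>
      rw [hst]
      obtain ⟨z, hz, h⟩ := hnet (insert (F (y n)) (st n).1) (1 / (n + 2 : ℝ)) (by positivity) x
      refine ⟨z, Finset.mem_union_right _ hz, fun f hf => ?_⟩
      have := h f hf
      have h2 : ((n + 1 : ℕ) : ℝ) + 1 = n + 2 := by push_cast; ring
      rw [h2]
      exact this
  have h0mem : ∀ n, F y₀ ∈ (st n).1 := fun n =>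
    hmono1 (Nat.zero_le n) (by
      show F y₀ ∈ (st 0).1
      rw [hst0]; exact Finset.mem_singleton_self _)
  have hymem : ∀ i n, i < n → F (y i) ∈ (st n).1 := fun i n hin =>
    hmono1 (Nat.succ_le_of_lt hin) (by
      show F (y i) ∈ (st (i + 1)).1
      rw [hst]; exact Finset.mem_insert_self _ _)
  have hyz : ∀ n z, z ∈ (st n).2 → Tendsto (fun m => F (y m) z) atTop (𝓝 (F y₀ z)) := by
    intro n z hz
    rw [tendsto_iff_dist_tendsto_zero]
    refine squeeze_zero' (Eventually.of_forall fun _ => dist_nonneg) ?_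
      tendsto_one_div_add_atTop_nhds_zero_nat
    filter_upwards [eventually_ge_atTop n] with m hm
    rw [Real.dist_eq]
    exact (hnx _ _ (hpos m) z (hmono2 hm hz)).le
  -- every limit along an ultrafilter is `F y₀`
  have key : ∀ (V : Ultrafilter ℕ), (V : Filter ℕ) ≤ atTop → ∀ x,
      Tendsto (fun m => F (y m) x) V (𝓝 (F y₀ x)) := by
    intro V hV x
    choose z hz hzz using fun n => hnetst n x
    -- limit of `y` along `V`
    obtain ⟨y', -, hy'⟩ := isCompact_univ.ultrafilter_le_nhds (V.map y) (by simp)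
    have hy'' : Tendsto y V (𝓝 y') := hy'
    obtain ⟨z', -, hz'⟩ := isCompact_univ.ultrafilter_le_nhds (V.map z) (by simp)
    have hz'' : Tendsto z V (𝓝 z') := hz'
    have h1 : ∀ w, Tendsto (fun m => F (y m) w) V (𝓝 (F y' w)) := fun w =>
      ((hF w).tendsto y').comp hy''
    -- values at z'
    have htail : Tendsto (fun n : ℕ => 1 / ((n : ℝ) + 1)) V (𝓝 0) :=
      tendsto_one_div_add_atTop_nhds_zero_nat.mono_left hV
    have h2 : ∀ f : C(X, ℝ), (∀ᶠ n in (V : Filter ℕ), f ∈ (st n).1) → f x = f z' := by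
      intro f hf
      have h3 : Tendsto (fun n => f (z n)) V (𝓝 (f z')) := (f.continuous.tendsto z').comp hz''
      have h4 : Tendsto (fun n => f (z n)) V (𝓝 (f x)) := by
        rw [tendsto_iff_dist_tendsto_zero]
        refine squeeze_zero' (Eventually.of_forall fun _ => dist_nonneg) ?_ htail
        filter_upwards [hf] with n hn
        rw [Real.dist_eq, abs_sub_comm]
        exact (hzz n f hn).le
      exact tendsto_nhds_unique h4 h3
    have h3 : ∀ i, F (y i) x = F (y i) z' := fun i => h2 _ (by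
      filter_upwards [hV (eventually_gt_atTop i)] with n hn
      exact hymem i n hn)
    have h4 : F y₀ x = F y₀ z' := h2 _ (Eventually.of_forall h0mem)
    have h5 : ∀ n, F y' (z n) = F y₀ (z n) := fun n =>
      tendsto_nhds_unique (h1 (z n)) ((hyz n (z n) (hz n)).mono_left hV)
    have h6 : F y' z' = F y₀ z' := by
      have h7 : Tendsto (fun n => F y' (z n)) V (𝓝 (F y' z')) :=
        ((F y').continuous.tendsto z').comp hz''
      have h8 : Tendsto (fun n => F y' (z n)) V (𝓝 (F y₀ z')) := by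
        simp only [h5]
        exact ((F y₀).continuous.tendsto z').comp hz''
      exact tendsto_nhds_unique h7 h8
    have h7 : F y' x = F y' z' := by
      have h8 : Tendsto (fun m => F (y m) x) V (𝓝 (F y' z')) := by
        simp only [h3]
        exact h1 z'
      exact tendsto_nhds_unique (h1 x) h8
    have h8 : F y₀ x = F y' x := by rw [h7, h6, h4]
    rw [h8]
    exact h1 x
  have hpt : ∀ x, Tendsto (fun m => F (y m) x) atTop (𝓝 (F y₀ x)) := by
    intro x
    rw [tendsto_iff_ultrafilter]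
    intro V hV
    exact key V hV x
  have hlim : Tendsto (fun m => Λ (F (y m) - F y₀)) atTop (𝓝 0) := by
    refine tendsto_functional_zero Λ _ (2 * C) (fun n t => ?_) (fun t => ?_)
    · rw [ContinuousMap.sub_apply]
      calc |F (y n) t - F y₀ t| ≤ |F (y n) t| + |F y₀ t| := abs_sub _ _
        _ ≤ 2 * C := by linarith [hC (y n) t, hC y₀ t]
    · simp only [ContinuousMap.sub_apply]
      have := (hpt t).sub_const (F y₀ t)
      simpa using this
  have hlim2 : Tendsto (fun m => Λ (F (y m))) atTop (𝓝 (Λ (F y₀))) := by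
    have h1 := hlim.add_const (Λ (F y₀))
    simpa using h1
  exact mem_closure_of_tendsto hlim2 (Eventually.of_forall fun n => ⟨y n, hyA n, rfl⟩)

end Pool.Agent.U498.WAP
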