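import Pool.Agent.U498.WAP.Groth

/-!
# Minimal right ideals of a compact semitopological semigroup with an invariant functional
-/

namespace Pool.Agent.U498.WAP

open Filter Topology Set

variable {Γ : Type*} [Semigroup Γ] [TopologicalSpace Γ] [CompactSpace Γ] [T2Space Γ]

/-- invariance under a dense set gives invariance -/
theorem invariant_all (hl : ∀ g : Γ, Continuous fun h : Γ => g * h)
    (hr : ∀ g : Γ, Continuous fun h : Γ => h * g) (M : C(Γ, ℝ) →L[ℝ] ℝ)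
    (D : Set Γ) (hD : Dense D)
    (hM : ∀ s ∈ D, ∀ φ : C(Γ, ℝ), M (φ.comp ⟨fun h => s * h, hl s⟩) = M φ) (g : Γ)
    (φ : C(Γ, ℝ)) : M (φ.comp ⟨fun h => g * h, hl g⟩) = M φ := by
  have h1 : Continuous fun g : Γ => M (φ.comp ⟨fun h => g * h, hl g⟩) := by
    refine continuous_functional (fun g : Γ => φ.comp ⟨fun h => g * h, hl g⟩) (fun x => ?_) ‖φ‖
      (fun g x => ?_) M
    · exact φ.continuous.comp (hr x)
    · exact φ.norm_coe_le_norm (g * x)
  have h2 := Continuous.ext_on hD h1 continuous_const (fun s hs => hM s hs φ)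
  exact congrFun h2 g

theorem exists_right_ideal [Nonempty Γ] (hl : ∀ g : Γ, Continuous fun h : Γ => g * h)
    (hr : ∀ g : Γ, Continuous fun h : Γ => h * g) (M : C(Γ, ℝ) →L[ℝ] ℝ) (hM1 : M 1 = 1)
    (D : Set Γ) (hD : Dense D)
    (hM : ∀ s ∈ D, ∀ φ : C(Γ, ℝ), M (φ.comp ⟨fun h => s * h, hl s⟩) = M φ) :
    ∃ R : Set Γ, IsClosed R ∧ R.Nonempty ∧ (∀ r ∈ R, ∀ g, r * g ∈ R) ∧ (∀ g, ∀ r ∈ R, g * r ∈ R) ∧
      (∀ g, ∀ r ∈ R, ∃ r' ∈ R, g * r' = r) ∧ (∀ f ∈ R, f * f = f → ∀ r ∈ R, f * r = r) := by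
  let 𝓕 : Set (Set Γ) := {N | IsClosed N ∧ N.Nonempty ∧ ∀ m ∈ N, ∀ g, m * g ∈ N}
  obtain ⟨R, hR⟩ : ∃ R, Minimal (· ∈ 𝓕) R := by
    refine zorn_superset _ fun c hcs hc => ?_
    refine ⟨⋂₀ c, ⟨isClosed_sInter fun t ht => (hcs ht).1, ?_, fun m hm g => ?_⟩, fun s hs =>
      Set.sInter_subset_of_mem hs⟩
    · obtain rfl | hcnemp := c.eq_empty_or_nonempty
      · rw [Set.sInter_empty]
        apply Set.univ_nonempty
      rw [Set.sInter_eq_iInter]
      have : Nonempty c := hcnemp.coe_sort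
      refine IsCompact.nonempty_iInter_of_directed_nonempty_isCompact_isClosed
        ((↑) : c → Set Γ) ?_ (fun i => (hcs i.prop).2.1) (fun i => (hcs i.prop).1.isCompact)
        (fun i => (hcs i.prop).1)
      exact DirectedOn.directed_val (IsChain.directedOn hc.symm)
    · rw [Set.mem_sInter]
      exact fun t ht => (hcs ht).2.2 m (Set.mem_sInter.mp hm t ht) g
  obtain ⟨hRc, hRne, hRi⟩ := hR.prop
  have hinv := invariant_all hl hr M D hD hM
  -- translates of `R`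
  have hgR : ∀ g : Γ, (fun h => g * h) '' R ∈ 𝓕 := by
    intro g
    refine ⟨((hRc.isCompact).image (hl g)).isClosed, hRne.image _, ?_⟩
    rintro _ ⟨r, hr', rfl⟩ k
    exact ⟨r * k, hRi r hr' k, by simp only [mul_assoc]⟩
  have hrR : ∀ r ∈ R, (fun h => r * h) '' univ = R := by
    intro r hr'
    refine hR.eq_of_subset ⟨(isCompact_univ.image (hl r)).isClosed, ⟨_, mem_image_of_mem _ (mem_univ r)⟩, ?_⟩ ?_
    · rintro _ ⟨k, -, rfl⟩ k'
      exact ⟨k * k', mem_univ _, by simp only [mul_assoc]⟩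
    · rintro _ ⟨k, -, rfl⟩
      exact hRi r hr' k
  -- the translate meets `R`
  have hmeet : ∀ g : Γ, ((fun h => g * h) '' R ∩ R).Nonempty := by
    intro g
    by_contra hne
    have hdisj : Disjoint ((fun h => g * h) '' R) R := by
      rw [Set.disjoint_iff_inter_eq_empty]
      exact Set.not_nonempty_iff_eq_empty.1 hne
    obtain ⟨f, hf0, hf1, -⟩ := exists_continuous_zero_one_of_isClosed (hgR g).1 hRc hdisj
    obtain ⟨r, hr0⟩ := hRne
    have h1 : M f = 1 := by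
      rw [← hinv r f, ← hM1]
      congr 1
      ext h
      exact hf1 (hRi r hr0 h)
    have h0 : M f = 0 := by
      rw [← hinv (g * r) f, ← map_zero M]
      congr 1
      ext h
      refine hf0 ?_
      exact ⟨r * h, hRi r hr0 h, by simp [mul_assoc]⟩
    rw [h1] at h0
    exact one_ne_zero h0
  have hsub1 : ∀ g : Γ, R ⊆ (fun h => g * h) '' R := by
    intro g
    have h1 : (fun h => g * h) '' R ∩ R = R := by
      refine hR.eq_of_subset ⟨(hgR g).1.inter hRc, hmeet g, ?_⟩ inter_subset_right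
      rintro m ⟨hm1, hm2⟩ k
      exact ⟨(hgR g).2.2 m hm1 k, hRi m hm2 k⟩
    exact inter_eq_right.1 h1
  have hsub2 : ∀ g : Γ, ∀ r ∈ R, g * r ∈ R := by
    intro g
    have h1 : {r | r ∈ R ∧ g * r ∈ R} = R := by
      refine hR.eq_of_subset ⟨?_, ?_, ?_⟩ (fun r hr' => hr'.1)
      · exact hRc.inter (hRc.preimage (hl g))
      · obtain ⟨y, ⟨r, hr1, rfl⟩, hr2⟩ := hmeet g
        exact ⟨r, hr1, hr2⟩
      · rintro m ⟨hm1, hm2⟩ k
        refine ⟨hRi m hm1 k, ?_⟩
        rw [← mul_assoc]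
        exact hRi _ hm2 k
    intro r hr'
    rw [← h1] at hr'
    exact hr'.2
  refine ⟨R, hRc, hRne, hRi, hsub2, ?_, ?_⟩
  · intro g r hr'
    obtain ⟨r', h1, h2⟩ := hsub1 g hr'
    exact ⟨r', h1, h2⟩
  · intro f hf hff r hr'
    rw [← hrR f hf] at hr'
    obtain ⟨k, -, rfl⟩ := hr'
    simp only [← mul_assoc, hff]

end Pool.Agent.U498.WAP
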