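import Pool.Agent.U498.WAP.Defs
import Pool.Agent.U498.WAP.Dyn

/-!
# The fixed point theorem
-/

set_option linter.unusedSectionVars false

namespace Pool.Agent.U498.WAP

open BoundedContinuousFunction Topology Set Filter

section WeakFacts

variable {𝕂 : Type*} {E : Type*} {ι : Type*} [RCLike 𝕂] [AddCommGroup E] [Module 𝕂 E] [Module ℝ E]
  [IsScalarTower ℝ 𝕂 E] [TopologicalSpace E] [T2Space E] {Q : SeminormFamily 𝕂 E ι}
  (hQ : WithSeminorms Q)

include hQ

theorem locConv : LocallyConvexSpace ℝ E := hQ.toLocallyConvexSpace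

theorem isClosed_weak {s : Set E} (hs : Convex ℝ s) (hc : IsClosed s) :
    IsClosed (toWeakSpace 𝕂 E '' s) := by
  have := hQ.topologicalAddGroup
  have := hQ.continuousSMul
  have := locConv hQ
  have h1 := hs.toWeakSpace_closure 𝕂
  rw [hc.closure_eq] at h1
  rw [h1]
  exact isClosed_closure

theorem t2_weak : T2Space (WeakSpace 𝕂 E) := by
  have := hQ.topologicalAddGroup
  have := hQ.continuousSMul
  have : T1Space (WeakSpace 𝕂 E) := by
    refine ⟨fun x => ?_⟩
    have h1 := isClosed_weak hQ (convex_singleton ((toWeakSpace 𝕂 E).symm x)) isClosed_singleton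
    simpa using h1
  infer_instance

theorem isClosed_weak_ball (i : ι) (z : E) (δ : ℝ) :
    IsClosed (toWeakSpace 𝕂 E '' {y | Q i (y - z) ≤ δ}) := by
  have := hQ.topologicalAddGroup
  have := hQ.continuousSMul
  refine isClosed_weak hQ ((Q i).convex_closedBall z δ) ?_
  exact isClosed_le ((hQ.continuous_seminorm i).comp (continuous_id.sub continuous_const))
    continuous_const

theorem sep_weak (D : Set E) (hD : D.Countable) : ∃ c : Set E, c.Countable ∧
    ∀ x : E, toWeakSpace 𝕂 E x ∈ closure (toWeakSpace 𝕂 E '' D) → ∀ i, ∀ δ > 0,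
      ∃ w ∈ c, Q i (x - w) ≤ δ := by
  have := hQ.topologicalAddGroup
  have := hQ.continuousSMul
  have := locConv hQ
  have h1 : TopologicalSpace.IsSeparable (closure (Submodule.span 𝕂 D : Set E)) :=
    (hD.isSeparable.span (R := 𝕂)).closure
  obtain ⟨c, hc, hc'⟩ := h1
  refine ⟨c, hc, fun x hx i δ hδ => ?_⟩
  have hconv : Convex ℝ (Submodule.span 𝕂 D : Set E) := by
    intro y hy z hz a b ha hb hab
    have e1 : ∀ (r : ℝ) (v : E), r • v = (r : 𝕂) • v := fun r v => by
      rw [← algebraMap_smul 𝕂 r v]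
    rw [e1, e1]
    exact (Submodule.span 𝕂 D).add_mem ((Submodule.span 𝕂 D).smul_mem _ hy)
      ((Submodule.span 𝕂 D).smul_mem _ hz)
  have h2 : toWeakSpace 𝕂 E x ∈ toWeakSpace 𝕂 E '' closure (Submodule.span 𝕂 D : Set E) := by
    rw [hconv.toWeakSpace_closure 𝕂]
    exact closure_mono (image_mono Submodule.subset_span) hx
  rw [(toWeakSpace 𝕂 E).injective.mem_set_image] at h2
  have h3 := hc' h2
  rw [mem_closure_iff_nhds] at h3
  have h4 : {y | Q i (x - y) < δ} ∈ 𝓝 x := by
    have : IsOpen {y | Q i (x - y) < δ} :=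
      isOpen_lt ((hQ.continuous_seminorm i).comp (continuous_const.sub continuous_id))
        continuous_const
    exact this.mem_nhds (by simpa using hδ)
  obtain ⟨w, hw1, hw2⟩ := h3 _ h4
  exact ⟨w, hw2, le_of_lt hw1⟩

end WeakFacts

section Mean

variable {𝕜 : Type*} [RCLike 𝕜] {S : Type*} [Semigroup S] [TopologicalSpace S]
  {Γ : Type*} [Semigroup Γ] [TopologicalSpace Γ] [CompactSpace Γ] [T2Space Γ]

/-- pull back a real function on `Γ` to `C_b(S)` -/
noncomputable def pull (𝕜 : Type*) [RCLike 𝕜] (τ : C(S, Γ)) : C(Γ, ℝ) →L[ℝ] (S →ᵇ 𝕜) :=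
  LinearMap.mkContinuous
    { toFun := fun φ => BoundedContinuousFunction.ofNormedAddCommGroup
        (fun s => ((φ (τ s) : ℝ) : 𝕜)) (by
          exact RCLike.continuous_ofReal.comp (φ.continuous.comp τ.continuous)) ‖φ‖ (fun s => by
          rw [RCLike.norm_ofReal, ← Real.norm_eq_abs]
          exact φ.norm_coe_le_norm _)
      map_add' := fun φ ψ => by
        ext s
        simp
      map_smul' := fun r φ => by
        ext s
        simp [Algebra.smul_def] } 1 (fun φ => by
      rw [one_mul]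
      refine (BoundedContinuousFunction.norm_le (norm_nonneg _)).2 fun s => ?_
      show ‖((φ (τ s) : ℝ) : 𝕜)‖ ≤ ‖φ‖
      rw [RCLike.norm_ofReal, ← Real.norm_eq_abs]
      exact φ.norm_coe_le_norm _)

theorem pull_apply (τ : C(S, Γ)) (φ : C(Γ, ℝ)) (s : S) : pull 𝕜 τ φ s = ((φ (τ s) : ℝ) : 𝕜) := rfl

theorem pull_mem (hS : IsSemitopological S) (hl : ∀ g : Γ, Continuous fun h : Γ => g * h)
    (hr : ∀ g : Γ, Continuous fun h : Γ => h * g) (τ : C(S, Γ)) (hτ : ∀ s t, τ (s * t) = τ s * τ t)
    (φ : C(Γ, ℝ)) : pull 𝕜 τ φ ∈ WAP 𝕜 hS := by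
  have hc : Continuous fun g : Γ => toWeakSpace 𝕜 (S →ᵇ 𝕜)
      (pull 𝕜 τ (φ.comp ⟨fun h => g * h, hl g⟩)) := by
    refine WeakBilin.continuous_of_continuous_eval _ fun Λ => ?_
    have key : ∀ N : C(Γ, ℝ) →L[ℝ] ℝ, Continuous fun g : Γ => N (φ.comp ⟨fun h => g * h, hl g⟩) :=
      fun N => continuous_functional (fun g : Γ => φ.comp ⟨fun h => g * h, hl g⟩)
        (fun x => φ.continuous.comp (hr x)) ‖φ‖ (fun g x => φ.norm_coe_le_norm (g * x)) N
    have h1 := key ((RCLike.reCLM.comp (Λ.restrictScalars ℝ)).comp (pull 𝕜 τ))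
    have h2 := key ((RCLike.imCLM.comp (Λ.restrictScalars ℝ)).comp (pull 𝕜 τ))
    have h3 : ∀ g : Γ, Λ (pull 𝕜 τ (φ.comp ⟨fun h => g * h, hl g⟩)) =
        ((((RCLike.reCLM.comp (Λ.restrictScalars ℝ)).comp (pull 𝕜 τ))
          (φ.comp ⟨fun h => g * h, hl g⟩) : ℝ) : 𝕜) +
        ((((RCLike.imCLM.comp (Λ.restrictScalars ℝ)).comp (pull 𝕜 τ))
          (φ.comp ⟨fun h => g * h, hl g⟩) : ℝ) : 𝕜) * RCLike.I := by
      intro g
      exact (RCLike.re_add_im _).symm
    have h4 : Continuous fun g : Γ => Λ (pull 𝕜 τ (φ.comp ⟨fun h => g * h, hl g⟩)) := by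
      simp only [h3]
      exact (RCLike.continuous_ofReal.comp h1).add
        ((RCLike.continuous_ofReal.comp h2).mul continuous_const)
    exact h4
  refine isWAP_of_subset 𝕜 hS _ _ (isCompact_range hc) fun a => ⟨τ a, ?_⟩
  show toWeakSpace 𝕜 (S →ᵇ 𝕜) _ = toWeakSpace 𝕜 (S →ᵇ 𝕜) _
  congr 1
  ext t
  show ((φ (τ a * τ t) : ℝ) : 𝕜) = ((φ (τ (a * t)) : ℝ) : 𝕜)
  rw [hτ]

open ComplexOrder in
theorem exists_functional (hS : IsSemitopological S) (m : WAP 𝕜 hS →ₗ[𝕜] 𝕜) (hm : IsLIM 𝕜 hS m)
    (hl : ∀ g : Γ, Continuous fun h : Γ => g * h)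
    (hr : ∀ g : Γ, Continuous fun h : Γ => h * g) (τ : C(S, Γ)) (hτ : ∀ s t, τ (s * t) = τ s * τ t) :
    ∃ M : C(Γ, ℝ) →L[ℝ] ℝ, M 1 = 1 ∧ ∀ s ∈ range τ, ∀ φ : C(Γ, ℝ),
      M (φ.comp ⟨fun h => s * h, hl s⟩) = M φ := by
  let P : C(Γ, ℝ) → WAP 𝕜 hS := fun φ => ⟨pull 𝕜 τ φ, pull_mem hS hl hr τ hτ φ⟩
  have hP1 : P 1 = ⟨1, one_mem_WAP 𝕜 hS⟩ := by
    apply Subtype.ext
    ext s
    show (((1 : ℝ)) : 𝕜) = 1
    exact RCLike.ofReal_one
  let M0 : C(Γ, ℝ) →ₗ[ℝ] ℝ :=
    { toFun := fun φ => RCLike.re (m (P φ))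
      map_add' := fun φ ψ => by
        have : P (φ + ψ) = P φ + P ψ := Subtype.ext (map_add (pull 𝕜 τ) φ ψ)
        rw [this, map_add, map_add]
      map_smul' := fun r φ => by
        have : P (r • φ) = (r : 𝕜) • P φ := by
          apply Subtype.ext
          ext s
          show (((r * φ (τ s) : ℝ)) : 𝕜) = (r : 𝕜) * ((φ (τ s) : ℝ) : 𝕜)
          push_cast
          rfl
        rw [this, map_smul, smul_eq_mul, RCLike.re_ofReal_mul]
        rfl }
  have hM0 : ∀ φ, M0 φ = RCLike.re (m (P φ)) := fun _ => rfl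
  have hpos : ∀ φ : C(Γ, ℝ), (∀ g, 0 ≤ φ g) → 0 ≤ M0 φ := by
    intro φ hφ
    have h1 := hm.nonneg (P φ) (fun s => by
      show (0 : 𝕜) ≤ ((φ (τ s) : ℝ) : 𝕜)
      exact RCLike.ofReal_nonneg.2 (hφ _))
    exact (RCLike.nonneg_iff.1 h1).1
  have hone : M0 1 = 1 := by
    rw [hM0, hP1, hm.one]
    exact RCLike.one_re
  have hle : ∀ φ : C(Γ, ℝ), M0 φ ≤ ‖φ‖ := by
    intro φ
    have h1 := hpos (‖φ‖ • 1 - φ) (fun g => by
      have := (le_abs_self _).trans (φ.norm_coe_le_norm g)
      simpa using this)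
    rw [map_sub, map_smul, hone, smul_eq_mul, mul_one] at h1
    linarith
  let M : C(Γ, ℝ) →L[ℝ] ℝ := M0.mkContinuous 1 (fun φ => by
    rw [one_mul, Real.norm_eq_abs, abs_le]
    refine ⟨?_, hle φ⟩
    have := hle (-φ)
    rw [map_neg, norm_neg] at this
    linarith)
  refine ⟨M, hone, ?_⟩
  rintro _ ⟨s, rfl⟩ φ
  show RCLike.re (m (P _)) = RCLike.re (m (P φ))
  congr 1
  rw [← hm.inv s (P φ)]
  congr 1
  apply Subtype.ext
  ext t
  show ((φ (τ s * τ t) : ℝ) : 𝕜) = ((φ (τ (s * t)) : ℝ) : 𝕜)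
  rw [hτ]

end Mean

/-- the enveloping semigroup -/
def Env {S X : Type*} [TopologicalSpace X] (T : S → X → X) : Type _ :=
  {g : X → X // g ∈ closure (Set.range T)}

instance {S X : Type*} [TopologicalSpace X] (T : S → X → X) : TopologicalSpace (Env T) :=
  inferInstanceAs (TopologicalSpace {g : X → X // g ∈ closure (Set.range T)})

theorem env_comp {S X : Type*} [Semigroup S] [TopologicalSpace X] (T : S → X → X)
    (hmul : ∀ s t, T (s * t) = T s ∘ T t) (hT : ∀ s, Continuous (T s))
    {g h : X → X} (hg : g ∈ closure (range T)) (hh : h ∈ closure (range T)) :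
    g ∘ h ∈ closure (range T) := by
  have h1 : ∀ s, T s ∘ h ∈ closure (range T) := by
    intro s
    refine map_mem_closure (f := fun h => T s ∘ h) ?_ hh ?_
    · exact continuous_pi fun x => (hT s).comp (continuous_apply x)
    · rintro _ ⟨t, rfl⟩
      exact ⟨s * t, hmul s t⟩
  have h2 : MapsTo (fun g : X → X => g ∘ h) (range T) (closure (range T)) := by
    rintro _ ⟨s, rfl⟩
    exact h1 s
  have h3 := h2.closure (show Continuous fun g : X → X => g ∘ h from
    continuous_pi fun x => continuous_apply (h x))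
  rw [closure_closure] at h3
  exact h3 hg

/-- **The fixed point theorem.** -/
theorem main.{v, w} {𝕜 𝕂 : Type*} [RCLike 𝕜] [RCLike 𝕂] {S : Type*} [Semigroup S]
    [TopologicalSpace S] (hS : IsSemitopological S) (m : WAP 𝕜 hS →ₗ[𝕜] 𝕜)
    (hm : IsLIM 𝕜 hS m) : PropertyF.{v, w} 𝕂 S := by
  intro E _ _ _ _ _ _ ι Q hQ C hCne hCconv hCcomp T hmul hsep hT hqe hne
  have := hQ.topologicalAddGroup
  have := hQ.continuousSMul
  have := t2_weak hQ
  let X := Wk 𝕂 C
  let j : X → WeakSpace 𝕂 E := fun x => toWeakSpace 𝕂 E x.val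
  have hj : IsInducing j := ⟨rfl⟩
  have hjinj : Function.Injective j := fun x y h =>
    Subtype.ext ((toWeakSpace 𝕂 E).injective h)
  have hXcomp : CompactSpace X := by
    rw [← isCompact_univ_iff, hj.isCompact_iff]
    convert hCcomp using 1
    ext z
    constructor
    · rintro ⟨x, -, rfl⟩
      exact ⟨x.val, x.2, rfl⟩
    · rintro ⟨x, hx, rfl⟩
      exact ⟨⟨x, hx⟩, mem_univ _, rfl⟩
  have hXT2 : T2Space X := (IsEmbedding.mk hj hjinj).t2Space
  have hXne : Nonempty X := ⟨⟨hCne.some, hCne.some_mem⟩⟩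
  -- the enveloping semigroup
  let Γ := Env T
  let sg : Semigroup Γ :=
    { mul := fun g h => ⟨g.1 ∘ h.1, env_comp T hmul hT g.2 h.2⟩
      mul_assoc := fun _ _ _ => rfl }
  have hΓcomp : CompactSpace Γ := isCompact_iff_compactSpace.1 isClosed_closure.isCompact
  have hΓT2 : T2Space Γ := inferInstanceAs (T2Space {g : X → X // g ∈ closure (Set.range T)})
  have hval : Continuous fun h : Γ => (h.1 : X → X) := continuous_subtype_val
  have hev : ∀ x : X, Continuous fun h : Γ => h.1 x := fun x => (continuous_apply x).comp hval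
  have hr : ∀ g : Γ, Continuous fun h : Γ => h * g := by
    intro g
    have h1 : Continuous fun h : Γ => h.1 ∘ g.1 := continuous_pi fun x => hev (g.1 x)
    exact Continuous.subtype_mk h1 _
  have hl : ∀ g : Γ, Continuous fun h : Γ => g * h := by
    intro g
    have h1 : Continuous fun h : Γ => g.1 ∘ h.1 :=
      continuous_pi fun x => (hqe g.1 g.2).comp (hev x)
    exact Continuous.subtype_mk h1 _
  let τ : C(S, Γ) := ⟨fun s => ⟨T s, subset_closure ⟨s, rfl⟩⟩,
    Continuous.subtype_mk (continuous_pi fun x => hsep x) _⟩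
  have hτ : ∀ s t, τ (s * t) = τ s * τ t := fun s t => Subtype.ext (hmul s t)
  have hdense : Dense (range τ) := by
    have h1 : Dense (range τ : Set {g : X → X // g ∈ closure (Set.range T)}) := by
      rw [Subtype.dense_iff]
      intro g hg
      refine closure_mono ?_ hg
      rintro _ ⟨s, rfl⟩
      exact ⟨τ s, ⟨s, rfl⟩, rfl⟩
    exact h1
  obtain ⟨M, hM1, hM⟩ := exists_functional hS m hm hl hr τ hτ
  have hSne : Nonempty S := by
    by_contra hcon
    have hemp : IsEmpty S := not_nonempty_iff.1 hcon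
    have h1 := hm.one
    have h2 : (⟨1, one_mem_WAP 𝕜 hS⟩ : WAP 𝕜 hS) = 0 := Subtype.ext (by ext s; exact hemp.elim s)
    rw [h2, map_zero] at h1
    exact zero_ne_one h1
  have hΓne : Nonempty Γ := ⟨τ hSne.some⟩
  obtain ⟨R, hRc, hRne, hRr, hRl, hRs, hRi⟩ := exists_right_ideal hl hr M hM1 (range τ) hdense hM
  have hsub : Continuous fun p : X × X => j p.1 - j p.2 :=
    (hj.continuous.comp continuous_fst).sub (hj.continuous.comp continuous_snd)
  have hball0 : ∀ i δ, IsClosed {p : X × X | Q i (p.1.val - p.2.val) ≤ δ} := by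
    intro i δ
    have h1 := (isClosed_weak_ball hQ i 0 δ).preimage hsub
    convert h1 using 1
    ext p
    constructor
    · intro hp
      exact ⟨p.1.val - p.2.val, by simpa using hp, by simp [j]⟩
    · rintro ⟨z, hz, hz'⟩
      have : z = p.1.val - p.2.val := (toWeakSpace 𝕂 E).injective (by rw [hz', map_sub])
      rw [this] at hz
      simpa using hz
  let c : Core Γ X E ι :=
    { hl := hl
      hr := hr
      act := fun g x => g.1 x
      act_mul := fun _ _ _ => rfl
      act_cont := fun g => hqe g.1 g.2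
      orb_cont := hev
      val := fun x => x.val
      val_inj := fun x y h => Subtype.ext h
      q := fun i => (Q i).restrictScalars ℝ
      nonexp := by
        intro g i x y
        have hc2 : Continuous fun g : X → X => ((g x, g y) : X × X) :=
          (continuous_apply x).prodMk (continuous_apply y)
        have hcl : IsClosed {g : X → X | Q i ((g x).val - (g y).val) ≤ Q i (x.val - y.val)} :=
          (hball0 i (Q i (x.val - y.val))).preimage hc2
        have h1 : closure (range T) ⊆ {g : X → X | Q i ((g x).val - (g y).val) ≤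
            Q i (x.val - y.val)} := by
          refine closure_minimal ?_ hcl
          rintro _ ⟨s, rfl⟩
          exact hne s i x y
        exact h1 g.2
      closed_ball := by
        intro i z δ
        have h1 := (isClosed_weak_ball hQ i z δ).preimage hj.continuous
        convert h1 using 1
        ext x
        constructor
        · intro hx
          exact ⟨x.val, hx, rfl⟩
        · rintro ⟨y, hy, hy'⟩
          have : y = x.val := (toWeakSpace 𝕂 E).injective hy'
          rw [this] at hy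
          exact hy
      sep := by
        intro D hD
        obtain ⟨c, hc, hc'⟩ := sep_weak hQ ((fun x : X => x.val) '' D) (hD.image _)
        refine ⟨c, hc, fun x hx i δ hδ => hc' x.val ?_ i δ hδ⟩
        have h1 := image_closure_subset_closure_image hj.continuous (mem_image_of_mem j hx)
        rw [image_image]
        exact h1
      sepPts := by
        intro x y h
        by_contra hxy
        have h1 : x.val - y.val ≠ 0 := fun h0 => hxy (Subtype.ext (sub_eq_zero.1 h0))
        obtain ⟨i, hi⟩ := hQ.separating_of_T1 _ h1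
        exact hi (h i)
      cvx := by
        have h1 : range (fun x : X => x.val) = C := by
          ext z
          constructor
          · rintro ⟨x, rfl⟩
            exact x.2
          · intro hz
            exact ⟨⟨z, hz⟩, rfl⟩
        rw [h1]
        exact hCconv
      R := R
      R_closed := hRc
      R_nonempty := hRne
      R_right := hRr
      R_left := hRl
      R_surj := hRs
      R_idem := hRi }
  obtain ⟨x, hx⟩ := c.fixedPoint τ hdense hXne
  exact ⟨x, hx⟩

end Pool.Agent.U498.WAP
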